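import Pool.Agent.Lead.War

namespace Pool.Agent.Results.MP_1e0c69_ag.Counterexample

open Pool.Agent.Lead.War

theorem result : ∃ (n d : ℕ) (f g : MvPolynomial (Fin n) ℂ), 1 ≤ n ∧ 1 ≤ d ∧
    f.IsHomogeneous d ∧ f ≠ 0 ∧ g.IsHomogeneous (d - 1) ∧ g ≠ 0 ∧
    ∃ r : ℕ, SumPow (MvPolynomial.rename some f + MvPolynomial.X none * MvPolynomial.rename some g) d r ∧
      ∀ v : MvPolynomial (Fin n) ℂ, v.IsHomogeneous 1 → ∀ w : ℕ, SumPow (f + v * g) d w → r < d + w :=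
  ⟨3, 3, ff, gg, by norm_num, by norm_num, ff_hom, ff_ne, gg_hom, gg_ne, 5, upper,
    fun v hv w h => by have := lower v hv w h; omega⟩

end Pool.Agent.Results.MP_1e0c69_ag.Counterexample
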